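import Pool.Agent.H.MP_dd1f31_an.D

set_option autoImplicit false

namespace Pool.Agent.Results.MP_38d282_an.Yes

theorem result (p q : Polynomial ℝ) (hp : ∀ z : ℂ, Polynomial.aeval z p = 0 → z.im = 0)
    (hq : ∀ k : ℕ, q.coeff k = 1 / (((k : ℝ) + 1) ^ (k + 1) * (Nat.factorial k : ℝ)) * p.coeff k) :
    ∀ z : ℂ, Polynomial.aeval z q = 0 → z.im = 0 := by
  refine (Pool.Agent.H.MP_dd1f31_an.MS_fin p q (.inr hp) hq).resolve_left fun e => ?_
  have : p = 0 := by
    ext k
    have := hq k
    rw [e, Polynomial.coeff_zero, eq_comm, mul_eq_zero] at this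
    exact this.resolve_left (by positivity)
  simpa [this] using hp Complex.I

end Pool.Agent.Results.MP_38d282_an.Yes
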